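import Mathlib

/-!
# An ordered Banach space in which increasing nets converge to their suprema, but in which
# not every order bounded increasing sequence converges

The space is `X = {(f, a, b) : f ∈ c, a b ∈ ℝ, 2 * lim f = a + b}` with the sup norm and the
coordinatewise order.
-/

namespace Pool.Agent.Results.MP_5ab9c0_an.NetSup

open Filter Topology Set

/-- The compact space: the one-point compactification of `ℕ` together with two isolated points. -/
abbrev K : Type := OnePoint ℕ ⊕ Bool

/-- The point at infinity. -/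
def pinf : K := Sum.inl OnePoint.infty

/-- The natural number points. -/
def pnat (n : ℕ) : K := Sum.inl (n : OnePoint ℕ)

/-- The closed subspace of `C(K, ℝ)` of those `F` with `2 F(∞) = F(true) + F(false)`. -/
def E : Submodule ℝ C(K, ℝ) where
  carrier := {F | 2 * F pinf = F (Sum.inr true) + F (Sum.inr false)}
  add_mem' := by
    intro F G hF hG
    simp only [mem_ofPred_eq, ContinuousMap.add_apply] at *
    linarith
  zero_mem' := by simp
  smul_mem' := by
    intro c F hF
    simp only [mem_ofPred_eq, ContinuousMap.smul_apply, smul_eq_mul] at *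
    rw [← mul_add, ← hF]; ring

lemma mem_E {F : C(K, ℝ)} : F ∈ E ↔ 2 * F pinf = F (Sum.inr true) + F (Sum.inr false) := Iff.rfl

lemma isClosed_E : IsClosed (E : Set C(K, ℝ)) := by
  have h : (E : Set C(K, ℝ)) =
      {F : C(K, ℝ) | 2 * F pinf = F (Sum.inr true) + F (Sum.inr false)} := rfl
  rw [h]
  exact isClosed_eq (by fun_prop) (by fun_prop)

/-- The indicator function of a clopen set. -/
noncomputable def ind (U : Set K) (hU : IsClopen U) : C(K, ℝ) :=
  ⟨U.indicator (fun _ => (1 : ℝ)), continuous_const.indicator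
    (by intro a ha; rw [hU.frontier_eq] at ha; exact absurd ha (by simp))⟩

lemma clopen_nat (n : ℕ) : IsClopen ({pnat n} : Set K) := by
  refine ⟨isClosed_singleton, ?_⟩
  have h1 : IsOpen ((↑) '' ({n} : Set ℕ) : Set (OnePoint ℕ)) :=
    OnePoint.isOpenEmbedding_coe.isOpenMap _ (isOpen_discrete {n})
  have h2 := isOpenMap_inl (X := OnePoint ℕ) (Y := Bool) _ h1
  simpa [pnat] using h2

lemma clopen_bool (b : Bool) : IsClopen ({Sum.inr b} : Set K) := by
  refine ⟨isClosed_singleton, ?_⟩
  have h2 := isOpenMap_inr (X := OnePoint ℕ) (Y := Bool) _ (isOpen_discrete ({b} : Set Bool))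
  simpa using h2

/-- indicator of the isolated point `n`. -/
noncomputable def en (n : ℕ) : C(K, ℝ) := ind {pnat n} (clopen_nat n)

/-- indicator of the isolated point `b`. -/
noncomputable def eb (b : Bool) : C(K, ℝ) := ind {Sum.inr b} (clopen_bool b)

@[simp] lemma en_nat (n m : ℕ) : en n (pnat m) = if m = n then 1 else 0 := by
  classical
  simp [en, ind, pnat, Pi.single_apply]

@[simp] lemma en_inf (n : ℕ) : en n pinf = 0 := by
  classical
  simp [en, ind, pinf, pnat]

@[simp] lemma en_bool (n : ℕ) (b : Bool) : en n (Sum.inr b) = 0 := by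
  classical
  simp [en, ind, pnat]

@[simp] lemma eb_inl (b : Bool) (z : OnePoint ℕ) : eb b (Sum.inl z) = 0 := by
  classical
  simp [eb, ind]

@[simp] lemma eb_inf (b : Bool) : eb b pinf = 0 := eb_inl _ _

@[simp] lemma eb_bool (b c : Bool) : eb b (Sum.inr c) = if c = b then 1 else 0 := by
  classical
  simp [eb, ind, Pi.single_apply]

lemma en_mem (n : ℕ) : en n ∈ E := by simp [mem_E]

lemma point_cases (t : K) :
    (∃ n, t = pnat n) ∨ t = pinf ∨ ∃ b, t = Sum.inr b := by
  rcases t with z | b
  · induction z using OnePoint.rec with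
    | infty => right; left; rfl
    | coe n => left; exact ⟨n, rfl⟩
  · right; right; exact ⟨b, rfl⟩

/-- Monotone nets in `E` with a least upper bound converge pointwise. -/
lemma pointwise {J : Type*} [Preorder J] [IsDirected J (· ≤ ·)] [Nonempty J]
    (x : J → E) (s : E) (hx : Monotone x) (hs : IsLUB (Set.range x) s) (t : K) :
    Tendsto (fun j => (x j : C(K, ℝ)) t) atTop (𝓝 ((s : C(K, ℝ)) t)) := by
  have hle : ∀ j t, (x j : C(K, ℝ)) t ≤ (s : C(K, ℝ)) t := by
    intro j t
    have := hs.1 ⟨j, rfl⟩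
    exact this t
  have hmono : ∀ t, Monotone (fun j => (x j : C(K, ℝ)) t) := by
    intro t i j hij
    exact hx hij t
  have hbdd : ∀ t, BddAbove (Set.range fun j => (x j : C(K, ℝ)) t) := by
    intro t
    exact ⟨(s : C(K, ℝ)) t, by rintro _ ⟨j, rfl⟩; exact hle j t⟩
  -- the limit
  have hlim : ∀ t, Tendsto (fun j => (x j : C(K, ℝ)) t) atTop
      (𝓝 (⨆ j, (x j : C(K, ℝ)) t)) := fun t => tendsto_atTop_ciSup (hmono t) (hbdd t)
  have hL : ∀ j t, (x j : C(K, ℝ)) t ≤ ⨆ j, (x j : C(K, ℝ)) t := fun j t => le_ciSup (hbdd t) j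
  have hLs : ∀ t, (⨆ j, (x j : C(K, ℝ)) t) ≤ (s : C(K, ℝ)) t := fun t => ciSup_le (fun j => hle j t)
  -- natural number points
  have hnat : ∀ n, (s : C(K, ℝ)) (pnat n) ≤ ⨆ j, (x j : C(K, ℝ)) (pnat n) := by
    intro n
    by_contra hcon
    push Not at hcon
    set L := ⨆ j, (x j : C(K, ℝ)) (pnat n) with hLdef
    set δ := (s : C(K, ℝ)) (pnat n) - L with hδ
    have hδ0 : 0 < δ := by rw [hδ]; linarith
    let w : E := s - δ • ⟨en n, en_mem n⟩
    have hw : w ∈ upperBounds (Set.range x) := by
      rintro _ ⟨j, rfl⟩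
      intro t
      have h1 : ((w : E) : C(K, ℝ)) t = (s : C(K, ℝ)) t - δ * en n t := by simp [w]
      change (x j : C(K, ℝ)) t ≤ (w : C(K, ℝ)) t
      rw [h1]
      rcases point_cases t with ⟨m, rfl⟩ | rfl | ⟨b, rfl⟩
      · rw [en_nat]
        split_ifs with hm
        · subst hm
          have := hL j (pnat m)
          rw [hδ]; linarith
        · have := hle j (pnat m); linarith
      · have := hle j pinf; simp; linarith
      · have := hle j (Sum.inr b); simp; linarith
    have h2 : (s : C(K, ℝ)) (pnat n) ≤ (w : C(K, ℝ)) (pnat n) := (hs.2 hw) (pnat n)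
    have h3 : (w : C(K, ℝ)) (pnat n) = (s : C(K, ℝ)) (pnat n) - δ := by simp [w]
    linarith
  -- the two extra points
  have hbool : ∀ b, (s : C(K, ℝ)) (Sum.inr b) ≤ ⨆ j, (x j : C(K, ℝ)) (Sum.inr b) := by
    intro b
    by_contra hcon
    push Not at hcon
    set L := ⨆ j, (x j : C(K, ℝ)) (Sum.inr b) with hLdef
    set δ := (s : C(K, ℝ)) (Sum.inr b) - L with hδ
    have hδ0 : 0 < δ := by rw [hδ]; linarith
    have hmem : eb b - eb (!b) ∈ E := by
      cases b <;> simp [mem_E]
    let w : E := s - δ • ⟨eb b - eb (!b), hmem⟩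
    have hw : w ∈ upperBounds (Set.range x) := by
      rintro _ ⟨j, rfl⟩
      intro t
      have h1 : ((w : E) : C(K, ℝ)) t = (s : C(K, ℝ)) t - δ * (eb b t - eb (!b) t) := by
        simp [w]
      change (x j : C(K, ℝ)) t ≤ (w : C(K, ℝ)) t
      rw [h1]
      rcases t with z | c
      · have := hle j (Sum.inl z); simp; linarith
      · have h4 := hle j (Sum.inr c)
        have h5 := hL j (Sum.inr c)
        by_cases hc : c = b
        · subst hc
          have : c ≠ !c := by cases c <;> simp
          simp only [eb_bool, if_true, this, if_false]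
          rw [hδ]; linarith
        · have hc' : c = !b := by cases c <;> cases b <;> simp_all
          subst hc'
          have : (!b) ≠ b := by cases b <;> simp
          simp only [eb_bool, if_true, this, if_false]
          linarith
    have h2 : (s : C(K, ℝ)) (Sum.inr b) ≤ (w : C(K, ℝ)) (Sum.inr b) := (hs.2 hw) (Sum.inr b)
    have hbb : b ≠ !b := by cases b <;> simp
    have h3 : (w : C(K, ℝ)) (Sum.inr b) = (s : C(K, ℝ)) (Sum.inr b) - δ := by
      simp [w, hbb]
    linarith
  rcases point_cases t with ⟨n, rfl⟩ | rfl | ⟨b, rfl⟩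
  · rw [le_antisymm (hnat n) (hLs _)]; exact hlim _
  · have hsE := mem_E.1 s.2
    have h1 : (s : C(K, ℝ)) pinf =
        ((s : C(K, ℝ)) (Sum.inr true) + (s : C(K, ℝ)) (Sum.inr false)) / 2 := by linarith
    have h2 : (fun j => (x j : C(K, ℝ)) pinf) =
        fun j => ((x j : C(K, ℝ)) (Sum.inr true) + (x j : C(K, ℝ)) (Sum.inr false)) / 2 := by
      funext j
      have := mem_E.1 (x j).2
      linarith
    rw [h1, h2]
    have ht := hlim (Sum.inr true)
    have hf := hlim (Sum.inr false)
    rw [← le_antisymm (hbool true) (hLs _)] at ht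
    rw [← le_antisymm (hbool false) (hLs _)] at hf
    exact (ht.add hf).div_const 2
  · rw [le_antisymm (hbool b) (hLs _)]; exact hlim _

/-- The increasing sequence `x_N = 1_{0,...,N-1}`. -/
noncomputable def xs (N : ℕ) : E := ∑ k ∈ Finset.range N, ⟨en k, en_mem k⟩

lemma xs_coe (N : ℕ) : (xs N : C(K, ℝ)) = ∑ k ∈ Finset.range N, en k := by
  simp [xs]

lemma xs_nat (N m : ℕ) : (xs N : C(K, ℝ)) (pnat m) = if m < N then 1 else 0 := by
  rw [xs_coe, ContinuousMap.sum_apply]
  simp [Finset.mem_range]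

lemma xs_inf (N : ℕ) : (xs N : C(K, ℝ)) pinf = 0 := by
  rw [xs_coe, ContinuousMap.sum_apply]; simp

lemma xs_bool (N : ℕ) (b : Bool) : (xs N : C(K, ℝ)) (Sum.inr b) = 0 := by
  rw [xs_coe, ContinuousMap.sum_apply]; simp

lemma xs_mono : Monotone xs := by
  intro N M h t
  change (xs N : C(K, ℝ)) t ≤ (xs M : C(K, ℝ)) t
  rcases point_cases t with ⟨m, rfl⟩ | rfl | ⟨b, rfl⟩
  · rw [xs_nat, xs_nat]
    split_ifs with h1 h2
    · exact le_rfl
    · omega
    · exact zero_le_one
    · exact le_rfl
  · rw [xs_inf, xs_inf]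
  · rw [xs_bool, xs_bool]

/-- The constant function one. -/
noncomputable def one' : E := ⟨1, by rw [mem_E]; simp; norm_num⟩

lemma xs_bdd : BddAbove (Set.range xs) := by
  refine ⟨one', ?_⟩
  rintro _ ⟨N, rfl⟩
  intro t
  change (xs N : C(K, ℝ)) t ≤ (1 : C(K, ℝ)) t
  rw [ContinuousMap.one_apply]
  rcases point_cases t with ⟨m, rfl⟩ | rfl | ⟨b, rfl⟩
  · rw [xs_nat]; split_ifs <;> norm_num
  · rw [xs_inf]; norm_num
  · rw [xs_bool]; norm_num

lemma xs_not_tendsto : ¬ ∃ l : E, Tendsto xs atTop (𝓝 l) := by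
  rintro ⟨l, hl⟩
  have hc : ∀ t, Tendsto (fun N => (xs N : C(K, ℝ)) t) atTop (𝓝 ((l : C(K, ℝ)) t)) := by
    intro t
    have h1 : Continuous (fun F : E => (F : C(K, ℝ)) t) := by
      have : Continuous (fun F : C(K, ℝ) => F t) := by fun_prop
      exact this.comp continuous_subtype_val
    exact (h1.tendsto l).comp hl
  have hn : ∀ m, (l : C(K, ℝ)) (pnat m) = 1 := by
    intro m
    refine tendsto_nhds_unique (hc (pnat m)) ?_
    refine tendsto_const_nhds.congr' ?_
    filter_upwards [eventually_gt_atTop m] with N hN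
    rw [xs_nat, if_pos hN]
  have hb : ∀ b, (l : C(K, ℝ)) (Sum.inr b) = 0 := by
    intro b
    refine tendsto_nhds_unique (hc (Sum.inr b)) ?_
    refine tendsto_const_nhds.congr' ?_
    filter_upwards with N
    rw [xs_bool]
  have hinf : (l : C(K, ℝ)) pinf = 1 := by
    have h1 : Continuous (fun z : OnePoint ℕ => (l : C(K, ℝ)) (Sum.inl z)) := by fun_prop
    have h2 : (fun z : OnePoint ℕ => (l : C(K, ℝ)) (Sum.inl z)) = fun _ => 1 := by
      refine Continuous.ext_on (OnePoint.denseRange_coe (X := ℕ)) h1 continuous_const ?_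
      rintro _ ⟨m, rfl⟩
      exact hn m
    exact congrFun h2 OnePoint.infty
  have := mem_E.1 l.2
  rw [hinf, hb, hb] at this
  norm_num at this

universe u

/-- There is a real ordered Banach space `X` (a Banach space with a closed cone
`{x | 0 ≤ x}`), in which moreover the cone has nonempty interior and the norm is monotone on
the cone, such that every increasing net in `X` that has a supremum converges in norm to it,
although some increasing sequence in `X` that is order bounded from above is not norm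
convergent. -/
theorem result :
    ∃ (X : Type) (_ : NormedAddCommGroup X) (_ : NormedSpace ℝ X) (_ : CompleteSpace X)
      (_ : PartialOrder X) (_ : IsOrderedAddMonoid X) (_ : PosSMulMono ℝ X),
      IsClosed {x : X | 0 ≤ x} ∧
      (interior {x : X | 0 ≤ x}).Nonempty ∧
      (∀ x y : X, 0 ≤ x → x ≤ y → ‖x‖ ≤ ‖y‖) ∧
      (∀ (J : Type u) [Preorder J] [IsDirected J (· ≤ ·)] [Nonempty J] (x : J → X) (s : X),
        Monotone x → IsLUB (Set.range x) s → Tendsto x atTop (𝓝 s)) ∧
      ∃ x : ℕ → X, Monotone x ∧ BddAbove (Set.range x) ∧ ¬ ∃ l : X, Tendsto x atTop (𝓝 l) := by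
  have hcomplete : CompleteSpace E := isClosed_E.completeSpace_coe
  have hsmul : PosSMulMono ℝ E := by
    refine ⟨fun c hc x y hxy t => ?_⟩
    have h1 : (x : C(K, ℝ)) t ≤ (y : C(K, ℝ)) t := hxy t
    change c * (x : C(K, ℝ)) t ≤ c * (y : C(K, ℝ)) t
    exact mul_le_mul_of_nonneg_left h1 hc
  refine ⟨E, inferInstance, inferInstance, hcomplete, inferInstance, inferInstance,
    hsmul, ?_, ?_, ?_, ?_, xs, xs_mono, xs_bdd, xs_not_tendsto⟩
  · have : {x : E | 0 ≤ x} = ⋂ t : K, {x : E | (0 : ℝ) ≤ (x : C(K, ℝ)) t} := by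
      ext x
      rw [Set.mem_iInter]
      exact Iff.rfl
    rw [this]
    refine isClosed_iInter fun t => ?_
    have h1 : Continuous (fun F : E => (F : C(K, ℝ)) t) := by
      have : Continuous (fun F : C(K, ℝ) => F t) := by fun_prop
      exact this.comp continuous_subtype_val
    exact isClosed_le continuous_const h1
  · refine ⟨one', ?_⟩
    rw [mem_interior_iff_mem_nhds, Metric.mem_nhds_iff]
    refine ⟨1, one_pos, ?_⟩
    intro F hF
    rw [Metric.mem_ball, dist_eq_norm] at hF
    have h1 : ‖((F - one' : E) : C(K, ℝ))‖ < 1 := hF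
    intro t
    have h2 := ((F - one' : E) : C(K, ℝ)).norm_coe_le_norm t
    have h3 : ((F - one' : E) : C(K, ℝ)) t = (F : C(K, ℝ)) t - 1 := by simp [one']
    rw [h3, Real.norm_eq_abs] at h2
    have h4 := (abs_le.1 (h2.trans h1.le)).1
    change (0 : ℝ) ≤ (F : C(K, ℝ)) t
    linarith
  · intro x y hx hxy
    change ‖(x : C(K, ℝ))‖ ≤ ‖(y : C(K, ℝ))‖
    rw [ContinuousMap.norm_le _ (norm_nonneg _)]
    intro t
    have h1 : 0 ≤ (x : C(K, ℝ)) t := hx t
    have h2 : (x : C(K, ℝ)) t ≤ (y : C(K, ℝ)) t := hxy t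
    have h3 := (y : C(K, ℝ)).norm_coe_le_norm t
    rw [Real.norm_eq_abs, abs_of_nonneg h1]
    rw [Real.norm_eq_abs, abs_of_nonneg (h1.trans h2)] at h3
    exact h2.trans h3
  · intro J _ _ _ x s hx hs
    have h1 : Tendsto (fun j => (x j : C(K, ℝ))) atTop (𝓝 (s : C(K, ℝ))) := by
      apply ContinuousMap.tendsto_of_monotone_of_pointwise
      · intro i j hij
        exact hx hij
      · exact pointwise x s hx hs
    exact tendsto_subtype_rng.2 h1

end Pool.Agent.Results.MP_5ab9c0_an.NetSup
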